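import Pool.Agent.X222.SL.Main

/-!
# MP_f0da7f_al: the numbers of the maximal ideals and of the maximal filters of the lattice of the
subspaces of an infinite-dimensional vector space

Let `V` be a vector space of infinite dimension `κ` over a field `F`. Then there are exactly
`2 ^ (|F| ^ κ)` maximal ideals and exactly `|F| ^ (2 ^ κ)` maximal filters of subspaces of `V`.

*Ideals.* The upper bound is the trivial one. For the lower bound we write down a family of
`|F| ^ κ` pairs of subspaces `W f 0`, `W f 1` (`f : κ → F`) which is independent: `W f 0 + W f 1 = V`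
and `W f (c f)`, `f ∈ s`, never generate `V` for `s` finite. In the model
`V = Finset (κ →₀ ℕ) →₀ F[X_e : e ∈ κ →₀ ℕ]` the space `W f 1` (`W f 0`) consists of those `v` for which
`v M` is a multiple of `t f M = ∑ e ∈ M, f ^ e X_e` (of `1 - t f M`) for all `M`; polynomial
interpolation gives the independence.

*Filters.* The lower bound uses the dual notion, with `|F|` alternatives for each of the `2 ^ κ`
subsets `X` of `κ`: in `V = (Finset κ × Finset (Finset κ)) →₀ F` the space `W X c` consists of those
`v` with `v (A, σ ∪ {X ∩ A}) = c v (A, σ)` whenever `X ∩ A ∉ σ`. The upper bound rests on a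
finiteness property of finite-dimensional spaces `E` (a Bollobás type theorem): every set `G` of
subspaces contains a finite subset `s` such that each subspace which meets all members of `s` in `E`
nontrivially meets all members of `G` in `E` nontrivially. By a closure process a maximal filter `J`
has, therefore, a subset of at most `2 ^ κ` members such that each subspace outside `J` meets one of
them trivially; and so the number of the maximal filters is at most `(|F| ^ κ) ^ (2 ^ κ)`.
-/

namespace Pool.Agent.Results.MP_f0da7f_al.Cardinalities

open Cardinal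

universe u

/-- `I` is an ideal of the lattice of the subspaces of `V`. -/
def IsIdeal {F V : Type u} [Field F] [AddCommGroup V] [Module F V] (I : Set (Submodule F V)) :
    Prop :=
  ⊥ ∈ I ∧ ⊤ ∉ I ∧ (∀ U ∈ I, ∀ W, W ≤ U → W ∈ I) ∧ (∀ U ∈ I, ∀ W ∈ I, U ⊔ W ∈ I)

/-- `J` is a filter of the lattice of the subspaces of `V`. -/
def IsFilter {F V : Type u} [Field F] [AddCommGroup V] [Module F V] (J : Set (Submodule F V)) :
    Prop :=
  ⊤ ∈ J ∧ ⊥ ∉ J ∧ (∀ U ∈ J, ∀ W, U ≤ W → W ∈ J) ∧ (∀ U ∈ J, ∀ W ∈ J, U ⊓ W ∈ J)

/-- The numbers of the maximal ideals and of the maximal filters of the lattice of the subspaces of a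
vector space `V` of infinite dimension `κ` over `F` are `2 ^ (|F| ^ κ)` and `|F| ^ (2 ^ κ)`. -/
theorem result (F V : Type u) [Field F] [AddCommGroup V] [Module F V]
    (hV : ℵ₀ ≤ Module.rank F V) :
    #{I : Set (Submodule F V) // Maximal IsIdeal I} = 2 ^ (#F ^ Module.rank F V) ∧
      #{J : Set (Submodule F V) // Maximal IsFilter J} =
        #F ^ ((2 : Cardinal.{u}) ^ Module.rank F V) :=
  Pool.Agent.X222.SL.count F V hV

end Pool.Agent.Results.MP_f0da7f_al.Cardinalities
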